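import Pool.Agent.H711R2.LN.SlabA

/-! Task Slab. -/

set_option autoImplicit false

namespace Pool.Agent.H711R2.LN

open Pool.Agent.H261R3.LH (Lip1 clip clip_nonneg)
open Pool.Agent.H261R3.LN

/-- the squeeze -/
noncomputable def psi (z δ : ℝ → ℝ) (x : ℝ) : ℝ := x + clip (200 * δ x) * (z x - x)

/-- moving points to the centre of the cell -/
noncomputable def pt {m : ℕ} (z δ : ℝ → ℝ) (s : ℝ) (x : Fin m → ℝ) : Fin m → ℝ :=
  fun i => x i + s * (psi z δ (x i) - x i)

/-- cutoff -/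
noncomputable def cc (δ : ℝ → ℝ) (x : ℝ) : ℝ := clip (200 * δ x - 1)

/-- cutoff -/
noncomputable def chi {m : ℕ} (δ : ℝ → ℝ) (x : Fin m → ℝ) : ℝ :=
  1 - dist (fun i => cc δ (x i)) (fun _ => (1 : ℝ))

/-- cutoff in the height -/
noncomputable def bet (h : ℝ) : ℝ := clip (min (3 * h) (3 * (1 - h)))

theorem bet_nonneg (h : ℝ) : 0 ≤ bet h := clip_nonneg _

theorem bet_le_one (h : ℝ) : bet h ≤ 1 := clip_le_one _

theorem bet_lip (h k : ℝ) : |bet h - bet k| ≤ 3 * |h - k| := by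
  unfold bet
  apply clip_lip_le
  refine (abs_min_sub_min_le_max _ _ _ _).trans (max_le ?_ ?_)
  · rw [show 3 * h - 3 * k = 3 * (h - k) by ring, abs_mul, abs_of_pos (by norm_num : (0 : ℝ) < 3)]
  · rw [show 3 * (1 - h) - 3 * (1 - k) = -(3 * (h - k)) by ring, abs_neg, abs_mul,
      abs_of_pos (by norm_num : (0 : ℝ) < 3)]

theorem bet_zero : bet 0 = 0 := by
  unfold bet
  apply clip_of_nonpos
  exact (min_le_left _ _).trans (by norm_num)

theorem bet_one : bet 1 = 0 := by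
  unfold bet
  apply clip_of_nonpos
  exact (min_le_right _ _).trans (by norm_num)

theorem bet_mid {h : ℝ} (h1 : 1 / 3 ≤ h) (h2 : h ≤ 2 / 3) : bet h = 1 := by
  unfold bet
  apply clip_of_one_le
  exact le_min (by linarith) (by linarith)

/-- the data of the cells -/
structure Cell (z δ : ℝ → ℝ) : Prop where
  zx : ∀ x, |z x - x| ≤ 1 / 2
  pos : ∀ x, 0 ≤ δ x
  lip : ∀ x y, |δ x - δ y| ≤ |x - y|
  sep : ∀ x y, z x = z y ∨ δ x + δ y ≤ |x - y|
  far : ∀ x v, IsV v → 1 / 12 ≤ |z x - v|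
  seg : ∀ x v s c, IsV v → 0 ≤ s → s ≤ 1 → c ≤ |x - v| → c ≤ |z x - v| →
      c ≤ |x + s * (z x - x) - v|
  del : ∀ x, (∀ v, IsV v → 1 / 100 ≤ |x - v|) → 1 / 100 ≤ δ x

theorem exists_cell : ∃ z δ, Cell z δ := by
  obtain ⟨z, δ, h1, h2, h3, h4, h5, h6, h7⟩ := geom
  exact ⟨z, δ, h1, h2, h3, h4, h5, h6, h7⟩

variable {z δ : ℝ → ℝ}

theorem abs_clip_mul (u w : ℝ) : |clip u * w| ≤ |w| := by
  rw [abs_mul, abs_of_nonneg (clip_nonneg u)]
  exact mul_le_of_le_one_left (abs_nonneg _) (clip_le_one u)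

theorem psi_sub (hc : Cell z δ) (x : ℝ) : |psi z δ x - x| ≤ 1 / 2 := by
  unfold psi
  rw [add_sub_cancel_left]
  exact (abs_clip_mul _ _).trans (hc.zx x)

theorem psi_sub' (hc : Cell z δ) (x : ℝ) : |psi z δ x - x| ≤ 100 * δ x := by
  unfold psi
  rw [add_sub_cancel_left, abs_mul, abs_of_nonneg (clip_nonneg _)]
  have h1 : clip (200 * δ x) ≤ 200 * δ x := clip_le (by have := hc.pos x; linarith)
  have h2 := hc.zx x
  have h3 := hc.pos x
  calc clip (200 * δ x) * |z x - x| ≤ (200 * δ x) * (1 / 2) :=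
        mul_le_mul h1 h2 (abs_nonneg _) (by linarith)
    _ = 100 * δ x := by ring

theorem psi_lip (hc : Cell z δ) (x y : ℝ) : |psi z δ x - psi z δ y| ≤ 102 * |x - y| := by
  rcases hc.sep x y with h | h
  · have e : psi z δ x - psi z δ y = (x - y) + ((clip (200 * δ x) - clip (200 * δ y)) * (z x - x)
        + clip (200 * δ y) * (-(x - y))) := by
      unfold psi
      rw [← h]
      ring
    rw [e]
    have h1 : |clip (200 * δ x) - clip (200 * δ y)| ≤ 200 * |x - y| := by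
      apply clip_lip_le
      rw [← mul_sub, abs_mul, abs_of_pos (by norm_num : (0 : ℝ) < 200)]
      have := hc.lip x y
      linarith
    have h2 : |(clip (200 * δ x) - clip (200 * δ y)) * (z x - x)| ≤ 100 * |x - y| := by
      rw [abs_mul]
      calc |clip (200 * δ x) - clip (200 * δ y)| * |z x - x| ≤ (200 * |x - y|) * (1 / 2) :=
            mul_le_mul h1 (hc.zx x) (abs_nonneg _) (by positivity)
        _ = 100 * |x - y| := by ring
    have h3 : |clip (200 * δ y) * (-(x - y))| ≤ |x - y| := by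
      refine (abs_clip_mul _ _).trans ?_
      rw [abs_neg]
    have h4 := abs_add_le (x - y) ((clip (200 * δ x) - clip (200 * δ y)) * (z x - x)
        + clip (200 * δ y) * (-(x - y)))
    have h5 := abs_add_le ((clip (200 * δ x) - clip (200 * δ y)) * (z x - x))
      (clip (200 * δ y) * (-(x - y)))
    linarith
  · have h1 := psi_sub' hc x
    have h2 := psi_sub' hc y
    have e : psi z δ x - psi z δ y = (psi z δ x - x) + ((x - y) + (-(psi z δ y - y))) := by ring
    rw [e]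
    have h3 := abs_add_le (psi z δ x - x) ((x - y) + (-(psi z δ y - y)))
    have h4 := abs_add_le (x - y) (-(psi z δ y - y))
    rw [abs_neg] at h4
    have h5 := abs_nonneg (x - y)
    linarith

theorem pt_lip (hc : Cell z δ) {m : ℕ} {s : ℝ} (hs0 : 0 ≤ s) (hs1 : s ≤ 1) (x y : Fin m → ℝ) :
    dist (pt z δ s x) (pt z δ s y) ≤ 102 * dist x y := by
  rw [dist_pi_le_iff (by positivity)]
  intro i
  have h0 : |x i - y i| ≤ dist x y := by
    rw [← Real.dist_eq]
    exact dist_le_pi_dist x y i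
  rw [Real.dist_eq]
  have e : pt z δ s x i - pt z δ s y i = (1 - s) * (x i - y i) +
      s * (psi z δ (x i) - psi z δ (y i)) := by
    unfold pt
    ring
  rw [e]
  have h1 := abs_add_le ((1 - s) * (x i - y i)) (s * (psi z δ (x i) - psi z δ (y i)))
  rw [abs_mul, abs_mul, abs_of_nonneg hs0, abs_of_nonneg (by linarith : 0 ≤ 1 - s)] at h1
  have h2 := psi_lip hc (x i) (y i)
  have h3 : s * |psi z δ (x i) - psi z δ (y i)| ≤ s * (102 * |x i - y i|) :=
    mul_le_mul_of_nonneg_left h2 hs0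
  have h4 := abs_nonneg (x i - y i)
  nlinarith

theorem pt_lip_s (hc : Cell z δ) {m : ℕ} (s s' : ℝ) (x : Fin m → ℝ) :
    dist (pt z δ s x) (pt z δ s' x) ≤ |s - s'| := by
  rw [dist_pi_le_iff (abs_nonneg _)]
  intro i
  rw [Real.dist_eq]
  have e : pt z δ s x i - pt z δ s' x i = (s - s') * (psi z δ (x i) - x i) := by
    unfold pt
    ring
  rw [e, abs_mul]
  have h1 := psi_sub hc (x i)
  have h2 := abs_nonneg (s - s')
  nlinarith

theorem cc_lip (hc : Cell z δ) (x y : ℝ) : |cc δ x - cc δ y| ≤ 200 * |x - y| := by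
  unfold cc
  apply clip_lip_le
  rw [show 200 * δ x - 1 - (200 * δ y - 1) = 200 * (δ x - δ y) by ring, abs_mul,
    abs_of_pos (by norm_num : (0 : ℝ) < 200)]
  have := hc.lip x y
  linarith

theorem cc_le (hc : Cell z δ) (x : ℝ) : cc δ x ≤ 200 * δ x := by
  unfold cc
  have h := hc.pos x
  exact max_le (by linarith) ((min_le_right _ _).trans (by linarith))

theorem chi_lip (hc : Cell z δ) {m : ℕ} (x y : Fin m → ℝ) :
    |chi δ x - chi δ y| ≤ 200 * dist x y := by
  have h1 : dist (fun i => cc δ (x i)) (fun i => cc δ (y i)) ≤ 200 * dist x y := by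
    rw [dist_pi_le_iff (by positivity)]
    intro i
    rw [Real.dist_eq]
    have h0 : |x i - y i| ≤ dist x y := by
      rw [← Real.dist_eq]
      exact dist_le_pi_dist x y i
    have := cc_lip hc (x i) (y i)
    linarith
  have h2 := dist_triangle (fun i => cc δ (x i)) (fun i => cc δ (y i)) (fun _ : Fin m => (1 : ℝ))
  have h3 := dist_triangle (fun i => cc δ (y i)) (fun i => cc δ (x i)) (fun _ : Fin m => (1 : ℝ))
  rw [dist_comm (fun i => cc δ (y i)) (fun i => cc δ (x i))] at h3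
  unfold chi
  rw [abs_le]
  constructor <;> linarith

theorem chi_le_cc {m : ℕ} (x : Fin m → ℝ) (i : Fin m) : chi δ x ≤ cc δ (x i) := by
  have h1 : dist (cc δ (x i)) 1 ≤ dist (fun i => cc δ (x i)) (fun _ : Fin m => (1 : ℝ)) :=
    dist_le_pi_dist (fun i => cc δ (x i)) (fun _ : Fin m => (1 : ℝ)) i
  have h2 : dist (cc δ (x i)) 1 = 1 - cc δ (x i) := by
    rw [dist_comm, Real.dist_eq, abs_of_nonneg]
    have : cc δ (x i) ≤ 1 := clip_le_one _
    linarith
  unfold chi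
  linarith

theorem chi_le_one {m : ℕ} (x : Fin m → ℝ) : chi δ x ≤ 1 := by
  unfold chi
  have := dist_nonneg (x := fun i => cc δ (x i)) (y := fun _ : Fin m => (1 : ℝ))
  linarith

theorem chi_sum (hc : Cell z δ) {m : ℕ} (x y : Fin m → ℝ) (i : Fin m) (h : z (x i) ≠ z (y i)) :
    chi δ x + chi δ y ≤ 200 * dist x y := by
  have h1 := (chi_le_cc (δ := δ) x i).trans (cc_le hc (x i))
  have h2 := (chi_le_cc (δ := δ) y i).trans (cc_le hc (y i))
  have h3 := (hc.sep (x i) (y i)).resolve_left h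
  have h0 : |x i - y i| ≤ dist x y := by
    rw [← Real.dist_eq]
    exact dist_le_pi_dist x y i
  linarith

theorem pt_one (hc : Cell z δ) {m : ℕ} (x : Fin m → ℝ) (h : 0 < chi δ x) :
    pt z δ 1 x = fun i => z (x i) := by
  funext i
  have h1 : 0 < cc δ (x i) := lt_of_lt_of_le h (chi_le_cc x i)
  have h2 : 1 ≤ 200 * δ (x i) := by
    by_contra h3
    rw [not_le] at h3
    have : cc δ (x i) = 0 := clip_of_nonpos (by linarith)
    linarith
  unfold pt psi
  rw [clip_of_one_le h2]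
  ring

section
variable {S : Type} [MetricSpace S] {m : ℕ} {p : S} {F : (Fin m → ℝ) → ℝ → S}
  {K : (Fin m → ℝ) → ℝ → ℝ → S} {C0 C1 : ℝ}

/-- the first phase -/
noncomputable def BB (F : (Fin m → ℝ) → ℝ → S) (z δ : ℝ → ℝ) (τ : ℝ) (x : Fin m → ℝ) (h : ℝ) : S :=
  F (pt z δ (τ * bet h) x) ((1 - τ) * h + τ * clip (3 * h - 1))

open Classical in
/-- both phases -/
noncomputable def G0 (F : (Fin m → ℝ) → ℝ → S) (K : (Fin m → ℝ) → ℝ → ℝ → S) (z δ : ℝ → ℝ)
    (τ τ2 : ℝ) (x : Fin m → ℝ) (h : ℝ) : S :=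
  if (1 / 3 ≤ h ∧ h ≤ 2 / 3) ∧ 0 < chi δ x ∧ 0 < τ2 then
    K (fun i => z (x i)) (3 * h - 1) (τ2 * chi δ x) else BB F z δ τ x h

/-- the data -/
structure Dat (p : S) (C0 C1 : ℝ) (F : (Fin m → ℝ) → ℝ → S) (K : (Fin m → ℝ) → ℝ → ℝ → S)
    (z δ : ℝ → ℝ) : Prop where
  cell : Cell z δ
  c0 : 0 ≤ C0
  c1 : 0 ≤ C1
  Fx : ∀ h x y, dist (F x h) (F y h) ≤ C0 * dist x y
  Fh : ∀ x h k, dist (F x h) (F x k) ≤ C0 * |h - k|
  Kh : ∀ (x : Fin m → ℝ) (t h k : ℝ), dist (K (fun i => z (x i)) h t) (K (fun i => z (x i)) k t) ≤ C1 * |h - k|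
  Kt : ∀ (x : Fin m → ℝ) (h s t : ℝ), dist (K (fun i => z (x i)) h s) (K (fun i => z (x i)) h t) ≤ C1 * |s - t|
  K0 : ∀ (x : Fin m → ℝ) (h : ℝ), 0 ≤ h → h ≤ 1 → K (fun i => z (x i)) h 0 = F (fun i => z (x i)) h
  K1 : ∀ (x : Fin m → ℝ) (h : ℝ), K (fun i => z (x i)) h 1 = p
  KL : ∀ (x : Fin m → ℝ) (t : ℝ), K (fun i => z (x i)) 0 t = p
  KR : ∀ (x : Fin m → ℝ) (t : ℝ), K (fun i => z (x i)) 1 t = p

theorem BBx (D : Dat p C0 C1 F K z δ) {τ h : ℝ} (h0 : 0 ≤ τ) (h1 : τ ≤ 1) (x y : Fin m → ℝ) :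
    dist (BB F z δ τ x h) (BB F z δ τ y h) ≤ 102 * C0 * dist x y := by
  unfold BB
  refine (D.Fx _ _ _).trans ?_
  have h2 := pt_lip D.cell (mul_nonneg h0 (bet_nonneg h))
    (mul_le_one₀ h1 (bet_nonneg h) (bet_le_one h)) x y
  have h3 := mul_le_mul_of_nonneg_left h2 D.c0
  linarith

theorem BBt (D : Dat p C0 C1 F K z δ) {τ τ' h : ℝ} (hh0 : 0 ≤ h) (hh1 : h ≤ 1) (x : Fin m → ℝ) :
    dist (BB F z δ τ x h) (BB F z δ τ' x h) ≤ 2 * C0 * |τ - τ'| := by
  unfold BB
  have h1 := dist_triangle (F (pt z δ (τ * bet h) x) ((1 - τ) * h + τ * clip (3 * h - 1)))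
    (F (pt z δ (τ' * bet h) x) ((1 - τ) * h + τ * clip (3 * h - 1)))
    (F (pt z δ (τ' * bet h) x) ((1 - τ') * h + τ' * clip (3 * h - 1)))
  have h2 := D.Fx ((1 - τ) * h + τ * clip (3 * h - 1)) (pt z δ (τ * bet h) x)
    (pt z δ (τ' * bet h) x)
  have h3 := D.Fh (pt z δ (τ' * bet h) x) ((1 - τ) * h + τ * clip (3 * h - 1))
    ((1 - τ') * h + τ' * clip (3 * h - 1))
  have h4 : dist (pt z δ (τ * bet h) x) (pt z δ (τ' * bet h) x) ≤ |τ - τ'| := by
    refine (pt_lip_s D.cell _ _ x).trans ?_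
    rw [← sub_mul, abs_mul, abs_of_nonneg (bet_nonneg h)]
    exact mul_le_of_le_one_right (abs_nonneg _) (bet_le_one h)
  have h5 : |(1 - τ) * h + τ * clip (3 * h - 1) - ((1 - τ') * h + τ' * clip (3 * h - 1))| ≤
      |τ - τ'| := by
    rw [show (1 - τ) * h + τ * clip (3 * h - 1) - ((1 - τ') * h + τ' * clip (3 * h - 1)) =
      (τ - τ') * (clip (3 * h - 1) - h) by ring, abs_mul]
    apply mul_le_of_le_one_right (abs_nonneg _)
    have h6 := clip_nonneg (3 * h - 1)
    have h7 := clip_le_one (3 * h - 1)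
    rw [abs_le]
    constructor <;> linarith
  have h6 := mul_le_mul_of_nonneg_left h4 D.c0
  have h7 := mul_le_mul_of_nonneg_left h5 D.c0
  linarith

theorem BBh (D : Dat p C0 C1 F K z δ) {τ : ℝ} (h0 : 0 ≤ τ) (h1 : τ ≤ 1) (x : Fin m → ℝ)
    (h k : ℝ) : dist (BB F z δ τ x h) (BB F z δ τ x k) ≤ 7 * C0 * |h - k| := by
  unfold BB
  have e1 := dist_triangle (F (pt z δ (τ * bet h) x) ((1 - τ) * h + τ * clip (3 * h - 1)))
    (F (pt z δ (τ * bet k) x) ((1 - τ) * h + τ * clip (3 * h - 1)))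
    (F (pt z δ (τ * bet k) x) ((1 - τ) * k + τ * clip (3 * k - 1)))
  have e2 := D.Fx ((1 - τ) * h + τ * clip (3 * h - 1)) (pt z δ (τ * bet h) x)
    (pt z δ (τ * bet k) x)
  have e3 := D.Fh (pt z δ (τ * bet k) x) ((1 - τ) * h + τ * clip (3 * h - 1))
    ((1 - τ) * k + τ * clip (3 * k - 1))
  have h4 : dist (pt z δ (τ * bet h) x) (pt z δ (τ * bet k) x) ≤ 3 * |h - k| := by
    refine (pt_lip_s D.cell _ _ x).trans ?_
    rw [← mul_sub, abs_mul, abs_of_nonneg h0]
    exact (mul_le_of_le_one_left (abs_nonneg _) h1).trans (bet_lip h k)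
  have h5 : |(1 - τ) * h + τ * clip (3 * h - 1) - ((1 - τ) * k + τ * clip (3 * k - 1))| ≤
      4 * |h - k| := by
    rw [show (1 - τ) * h + τ * clip (3 * h - 1) - ((1 - τ) * k + τ * clip (3 * k - 1)) =
      (1 - τ) * (h - k) + τ * (clip (3 * h - 1) - clip (3 * k - 1)) by ring]
    have h6 := abs_add_le ((1 - τ) * (h - k)) (τ * (clip (3 * h - 1) - clip (3 * k - 1)))
    rw [abs_mul, abs_mul, abs_of_nonneg h0, abs_of_nonneg (by linarith : 0 ≤ 1 - τ)] at h6
    have h7 : |clip (3 * h - 1) - clip (3 * k - 1)| ≤ 3 * |h - k| := by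
      apply clip_lip_le
      rw [show 3 * h - 1 - (3 * k - 1) = 3 * (h - k) by ring, abs_mul,
        abs_of_pos (by norm_num : (0 : ℝ) < 3)]
    have h8 := abs_nonneg (h - k)
    have h9 := mul_le_of_le_one_left (abs_nonneg (clip (3 * h - 1) - clip (3 * k - 1))) h1
    have h10 := mul_le_of_le_one_left h8 (by linarith : 1 - τ ≤ 1)
    linarith
  have h6 := mul_le_mul_of_nonneg_left h4 D.c0
  have h7 := mul_le_mul_of_nonneg_left h5 D.c0
  linarith

theorem mid (D : Dat p C0 C1 F K z δ) {h : ℝ} (h1 : 1 / 3 ≤ h) (h2 : h ≤ 2 / 3) (x : Fin m → ℝ)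
    (hx : 0 < chi δ x) : BB F z δ 1 x h = K (fun i => z (x i)) (3 * h - 1) 0 := by
  unfold BB
  rw [bet_mid h1 h2, one_mul, pt_one D.cell x hx, D.K0 x _ (by linarith) (by linarith),
    clip_of_mem (by linarith) (by linarith)]
  congr 1
  ring

theorem near (D : Dat p C0 C1 F K z δ) {τ τ2 h : ℝ} (hτ : 0 < τ2 → τ = 1) (h0 : 0 ≤ τ2)
    (h1 : τ2 ≤ 1) (x : Fin m → ℝ) :
    dist (G0 F K z δ τ τ2 x h) (BB F z δ τ x h) ≤ C1 * max 0 (chi δ x) ∧
      dist (G0 F K z δ τ τ2 x h) (BB F z δ τ x h) ≤ C1 * τ2 := by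
  have hc1 := D.c1
  unfold G0
  split_ifs with hc
  · obtain ⟨⟨h2, h3⟩, h4, h5⟩ := hc
    rw [hτ h5, mid D h2 h3 x h4]
    have h6 := D.Kt x (3 * h - 1) (τ2 * chi δ x) 0
    rw [sub_zero, abs_of_nonneg (by positivity)] at h6
    have h7 := chi_le_one (δ := δ) x
    constructor
    · refine h6.trans (mul_le_mul_of_nonneg_left ?_ D.c1)
      exact (mul_le_of_le_one_left h4.le h1).trans (le_max_right _ _)
    · refine h6.trans (mul_le_mul_of_nonneg_left ?_ D.c1)
      exact mul_le_of_le_one_right h0 h7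
  · rw [dist_self]
    exact ⟨mul_nonneg D.c1 (le_max_left _ _), mul_nonneg D.c1 h0⟩

theorem G0x (D : Dat p C0 C1 F K z δ) {τ τ2 h : ℝ} (hτ : 0 < τ2 → τ = 1) (h0 : 0 ≤ τ2)
    (h1 : τ2 ≤ 1) (hτ0 : 0 ≤ τ) (hτ1 : τ ≤ 1) (x y : Fin m → ℝ) :
    dist (G0 F K z δ τ τ2 x h) (G0 F K z δ τ τ2 y h) ≤ (102 * C0 + 200 * C1) * dist x y := by
  have hc0 := D.c0
  have hc1 := D.c1
  have hd : 0 ≤ dist x y := dist_nonneg
  -- the general bound
  have gen : max 0 (chi δ x) + max 0 (chi δ y) ≤ 200 * dist x y →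
      dist (G0 F K z δ τ τ2 x h) (G0 F K z δ τ τ2 y h) ≤ (102 * C0 + 200 * C1) * dist x y := by
    intro hs
    have e1 := (near D (h := h) hτ h0 h1 x).1
    have e2 := (near D (h := h) hτ h0 h1 y).1
    have e3 := BBx D (h := h) hτ0 hτ1 x y
    have e4 := dist_triangle4 (G0 F K z δ τ τ2 x h) (BB F z δ τ x h) (BB F z δ τ y h)
      (G0 F K z δ τ τ2 y h)
    rw [dist_comm (BB F z δ τ y h)] at e4
    have e5 := mul_le_mul_of_nonneg_left hs D.c1
    linarith
  by_cases hx : 0 < chi δ x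
  · by_cases hy : 0 < chi δ y
    · by_cases hz : (fun i => z (x i)) = (fun i => z (y i))
      · by_cases hc : (1 / 3 ≤ h ∧ h ≤ 2 / 3) ∧ 0 < τ2
        · have ex : G0 F K z δ τ τ2 x h = K (fun i => z (x i)) (3 * h - 1) (τ2 * chi δ x) := by
            unfold G0
            rw [if_pos ⟨hc.1, hx, hc.2⟩]
          have ey : G0 F K z δ τ τ2 y h = K (fun i => z (x i)) (3 * h - 1) (τ2 * chi δ y) := by
            unfold G0
            rw [if_pos ⟨hc.1, hy, hc.2⟩, hz]
          rw [ex, ey]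
          refine (D.Kt x _ _ _).trans ?_
          rw [← mul_sub, abs_mul, abs_of_nonneg h0]
          have e1 := chi_lip D.cell x y
          have e2 := mul_le_of_le_one_left (abs_nonneg (chi δ x - chi δ y)) h1
          have e3 := mul_le_mul_of_nonneg_left (e2.trans e1) D.c1
          have e4 : 0 ≤ C0 * dist x y := by positivity
          linarith
        · have ex : ∀ x, G0 F K z δ τ τ2 x h = BB F z δ τ x h := by
            intro x
            unfold G0
            rw [if_neg (fun hh => hc ⟨hh.1, hh.2.2⟩)]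
          rw [ex, ex]
          have e3 := BBx D (h := h) hτ0 hτ1 x y
          have e4 : 0 ≤ C1 * dist x y := by positivity
          linarith
      · obtain ⟨i, hi⟩ : ∃ i, z (x i) ≠ z (y i) := by
          by_contra hcon
          push Not at hcon
          exact hz (funext hcon)
        apply gen
        rw [max_eq_right hx.le, max_eq_right hy.le]
        exact chi_sum D.cell x y i hi
    · apply gen
      rw [max_eq_right hx.le, max_eq_left (not_lt.1 hy), add_zero]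
      have e1 := (abs_le.1 (chi_lip D.cell x y)).2
      linarith
  · apply gen
    rw [max_eq_left (not_lt.1 hx), zero_add]
    have e1 := (abs_le.1 (chi_lip D.cell x y)).1
    exact max_le (by positivity) (by linarith)

theorem G0t (D : Dat p C0 C1 F K z δ) {τ τ2 τ' τ2' h c : ℝ} (hτ : 0 < τ2 → τ = 1) (h0 : 0 ≤ τ2)
    (h1 : τ2 ≤ 1) (hτ' : 0 < τ2' → τ' = 1) (h0' : 0 ≤ τ2')
    (h1' : τ2' ≤ 1) (hh0 : 0 ≤ h) (hh1 : h ≤ 1) (hd : |τ - τ'| ≤ 2 * c) (hd2 : |τ2 - τ2'| ≤ 2 * c)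
    (x : Fin m → ℝ) :
    dist (G0 F K z δ τ τ2 x h) (G0 F K z δ τ' τ2' x h) ≤ (4 * C0 + 2 * C1) * c := by
  have hc0 := D.c0
  have hc1 := D.c1
  have hcc : 0 ≤ c := by
    have := abs_nonneg (τ - τ')
    linarith
  have e3 := BBt D (τ := τ) (τ' := τ') hh0 hh1 x
  have e3' := mul_le_mul_of_nonneg_left hd D.c0
  have e6 : 0 ≤ C1 * c := by positivity
  have e7 : 0 ≤ C0 * c := by positivity
  by_cases hA : (1 / 3 ≤ h ∧ h ≤ 2 / 3) ∧ 0 < chi δ x
  · by_cases hB : 0 < τ2 ∧ 0 < τ2'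
    · have ex : G0 F K z δ τ τ2 x h = K (fun i => z (x i)) (3 * h - 1) (τ2 * chi δ x) := by
        unfold G0
        rw [if_pos ⟨hA.1, hA.2, hB.1⟩]
      have ey : G0 F K z δ τ' τ2' x h = K (fun i => z (x i)) (3 * h - 1) (τ2' * chi δ x) := by
        unfold G0
        rw [if_pos ⟨hA.1, hA.2, hB.2⟩]
      rw [ex, ey]
      refine (D.Kt x _ _ _).trans ?_
      rw [← sub_mul, abs_mul, abs_of_pos hA.2]
      have e2 := mul_le_of_le_one_right (abs_nonneg (τ2 - τ2')) (chi_le_one (δ := δ) x)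
      have e4 := mul_le_mul_of_nonneg_left (e2.trans hd2) D.c1
      linarith
    · have e1 := (near D (h := h) hτ h0 h1 x).2
      have e2 := (near D (h := h) hτ' h0' h1' x).2
      have e4 := dist_triangle4 (G0 F K z δ τ τ2 x h) (BB F z δ τ x h) (BB F z δ τ' x h)
        (G0 F K z δ τ' τ2' x h)
      rw [dist_comm (BB F z δ τ' x h)] at e4
      have e5 : τ2 + τ2' ≤ 2 * c := by
        refine le_trans ?_ hd2
        by_cases hp : 0 < τ2
        · have : τ2' = 0 := le_antisymm (not_lt.1 fun hq => hB ⟨hp, hq⟩) h0'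
          rw [this, add_zero, sub_zero]
          exact le_abs_self _
        · have : τ2 = 0 := le_antisymm (not_lt.1 hp) h0
          rw [this, zero_add, zero_sub, abs_neg]
          exact le_abs_self _
      have e8 := mul_le_mul_of_nonneg_left e5 D.c1
      linarith
  · have ex : ∀ τ τ2, G0 F K z δ τ τ2 x h = BB F z δ τ x h := by
      intro τ τ2
      unfold G0
      rw [if_neg (fun hh => hA ⟨hh.1, hh.2.1⟩)]
    rw [ex, ex]
    linarith

theorem G0h1 (D : Dat p C0 C1 F K z δ) {τ2 h k : ℝ} (h0 : 0 < τ2) (x : Fin m → ℝ)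
    (hx : 0 < chi δ x) (hh : 1 / 3 ≤ h ∧ h ≤ 2 / 3) (hk : ¬ (1 / 3 ≤ k ∧ k ≤ 2 / 3)) :
    dist (G0 F K z δ 1 τ2 x h) (G0 F K z δ 1 τ2 x k) ≤ (7 * C0 + 6 * C1) * |h - k| := by
  have hc0 := D.c0
  have hc1 := D.c1
  have ex : G0 F K z δ 1 τ2 x h = K (fun i => z (x i)) (3 * h - 1) (τ2 * chi δ x) := by
    unfold G0
    rw [if_pos ⟨hh, hx, h0⟩]
  have ey : G0 F K z δ 1 τ2 x k = BB F z δ 1 x k := by
    unfold G0
    rw [if_neg (fun h' => hk h'.1)]
  rw [ex, ey]
  have e1 := dist_triangle4 (K (fun i => z (x i)) (3 * h - 1) (τ2 * chi δ x)) p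
    (BB F z δ 1 x h) (BB F z δ 1 x k)
  have e2 := BBh D zero_le_one le_rfl x h k
  by_cases hk1 : 1 / 3 ≤ k
  · have hk2 : 2 / 3 < k := by
      by_contra hcon
      exact hk ⟨hk1, not_lt.1 hcon⟩
    have e3 : |h - k| = k - h := by
      rw [abs_sub_comm, abs_of_nonneg (by linarith)]
    have e4 : dist (K (fun i => z (x i)) (3 * h - 1) (τ2 * chi δ x)) p ≤ C1 * (3 * |h - k|) := by
      rw [← D.KR x (τ2 * chi δ x)]
      refine (D.Kh x _ _ _).trans (mul_le_mul_of_nonneg_left ?_ D.c1)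
      rw [e3, abs_of_nonpos (by linarith)]
      linarith
    have e5 : dist p (BB F z δ 1 x h) ≤ C1 * (3 * |h - k|) := by
      rw [mid D hh.1 hh.2 x hx, dist_comm, ← D.KR x 0]
      refine (D.Kh x _ _ _).trans (mul_le_mul_of_nonneg_left ?_ D.c1)
      rw [e3, abs_of_nonpos (by linarith)]
      linarith
    linarith
  · rw [not_le] at hk1
    have e3 : |h - k| = h - k := abs_of_nonneg (by linarith)
    have e4 : dist (K (fun i => z (x i)) (3 * h - 1) (τ2 * chi δ x)) p ≤ C1 * (3 * |h - k|) := by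
      rw [← D.KL x (τ2 * chi δ x)]
      refine (D.Kh x _ _ _).trans (mul_le_mul_of_nonneg_left ?_ D.c1)
      rw [e3, abs_of_nonneg (by linarith)]
      linarith
    have e5 : dist p (BB F z δ 1 x h) ≤ C1 * (3 * |h - k|) := by
      rw [mid D hh.1 hh.2 x hx, dist_comm, ← D.KL x 0]
      refine (D.Kh x _ _ _).trans (mul_le_mul_of_nonneg_left ?_ D.c1)
      rw [e3, abs_of_nonneg (by linarith)]
      linarith
    linarith

theorem G0h (D : Dat p C0 C1 F K z δ) {τ τ2 h k : ℝ} (hτ : 0 < τ2 → τ = 1)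
    (hτ0 : 0 ≤ τ) (hτ1 : τ ≤ 1) (x : Fin m → ℝ) :
    dist (G0 F K z δ τ τ2 x h) (G0 F K z δ τ τ2 x k) ≤ (7 * C0 + 6 * C1) * |h - k| := by
  have hc0 := D.c0
  have hc1 := D.c1
  have e6 : 0 ≤ C1 * |h - k| := by positivity
  have e7 : 0 ≤ C0 * |h - k| := by positivity
  have e2 := BBh D hτ0 hτ1 x h k
  by_cases hB : 0 < chi δ x ∧ 0 < τ2
  · by_cases hh : 1 / 3 ≤ h ∧ h ≤ 2 / 3
    · by_cases hk : 1 / 3 ≤ k ∧ k ≤ 2 / 3
      · have ex : ∀ h, 1 / 3 ≤ h ∧ h ≤ 2 / 3 → G0 F K z δ τ τ2 x h =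
            K (fun i => z (x i)) (3 * h - 1) (τ2 * chi δ x) := by
          intro h hh
          unfold G0
          rw [if_pos ⟨hh, hB.1, hB.2⟩]
        rw [ex h hh, ex k hk]
        have e8 := D.Kh x (τ2 * chi δ x) (3 * h - 1) (3 * k - 1)
        rw [show 3 * h - 1 - (3 * k - 1) = 3 * (h - k) by ring, abs_mul,
          abs_of_pos (by norm_num : (0 : ℝ) < 3)] at e8
        linarith
      · rw [hτ hB.2]
        exact G0h1 D hB.2 x hB.1 hh hk
    · by_cases hk : 1 / 3 ≤ k ∧ k ≤ 2 / 3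
      · rw [hτ hB.2, dist_comm, abs_sub_comm]
        exact G0h1 D hB.2 x hB.1 hk hh
      · have ex : ∀ h, ¬ (1 / 3 ≤ h ∧ h ≤ 2 / 3) → G0 F K z δ τ τ2 x h = BB F z δ τ x h := by
          intro h hh
          unfold G0
          rw [if_neg (fun h' => hh h'.1)]
        rw [ex h hh, ex k hk]
        linarith
  · have ex : ∀ h, G0 F K z δ τ τ2 x h = BB F z δ τ x h := by
      intro h
      unfold G0
      rw [if_neg (fun h' => hB ⟨h'.2.1, h'.2.2⟩)]
    rw [ex h, ex k]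
    linarith

end

theorem pt_zero {m : ℕ} (x : Fin m → ℝ) : pt z δ 0 x = x := by
  funext i
  unfold pt
  ring

theorem far0 {m : ℕ} {a : ℝ} {x : Fin m → ℝ} :
    Far 0 a x ↔ ∀ i (k : ℤ), a ≤ |x i - (k + 1 / 6)| := by
  unfold Far
  simp only [zpow_zero, one_mul]

theorem far1 {m : ℕ} {a : ℝ} {x : Fin m → ℝ} :
    Far 1 a x ↔ ∀ i (k : ℤ), a ≤ |x i - 2 * (k + 1 / 6)| := by
  unfold Far
  simp only [zpow_one]

/-- Task Slab. -/
theorem taskSlab : TaskSlab := by
  intro S _ p m hN C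
  obtain ⟨z, δ, hc⟩ := exists_cell
  obtain ⟨C1, hC1, hN1⟩ := hN (max C 0)
  have hC0 : 0 ≤ max C 0 := le_max_right _ _
  refine ⟨102 * max C 0 + 200 * C1, by positivity, ?_⟩
  intro F hFx hFh hF0 hF1
  have hFx' : ∀ h x y, dist (F x h) (F y h) ≤ max C 0 * dist x y := fun h x y =>
    (hFx h x y).trans (mul_le_mul_of_nonneg_right (le_max_left _ _) dist_nonneg)
  have hFh' : ∀ x h k, dist (F x h) (F x k) ≤ max C 0 * |h - k| := fun x h k =>
    (hFh x h k).trans (mul_le_mul_of_nonneg_right (le_max_left _ _) (abs_nonneg _))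
  have hK : ∀ w : Fin m → ℝ, ∃ K : ℝ → ℝ → S, F w 0 = p → F w 1 = p →
      (∀ t, Lip1 C1 (fun h => K h t)) ∧ (∀ h, Lip1 C1 (fun t => K h t)) ∧
      (∀ h, 0 ≤ h → h ≤ 1 → K h 0 = F w h) ∧ (∀ h, K h 1 = p) ∧ ∀ t, K 0 t = p ∧ K 1 t = p := by
    intro w
    by_cases hw : F w 0 = p ∧ F w 1 = p
    · obtain ⟨K, hK⟩ := hN1 (fun h => F w h) (fun h k => hFh' w h k) hw.1 hw.2
      exact ⟨K, fun _ _ => hK⟩
    · exact ⟨fun _ _ => p, fun h0 h1 => absurd ⟨h0, h1⟩ hw⟩
  choose K hK using hK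
  have hz0 : ∀ x : Fin m → ℝ, F (fun i => z (x i)) 0 = p := by
    intro x
    apply hF0
    rw [far0]
    intro i k
    have := hc.far (x i) _ ⟨k, Or.inl rfl⟩
    linarith
  have hz1 : ∀ x : Fin m → ℝ, F (fun i => z (x i)) 1 = p := by
    intro x
    apply hF1
    rw [far1]
    intro i k
    have := hc.far (x i) _ ⟨k, Or.inr rfl⟩
    linarith
  have D : Dat p (max C 0) C1 F K z δ :=
    { cell := hc
      c0 := hC0
      c1 := hC1
      Fx := hFx'
      Fh := hFh'
      Kh := fun x t h k => (hK _ (hz0 x) (hz1 x)).1 t h k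
      Kt := fun x h s t => (hK _ (hz0 x) (hz1 x)).2.1 h s t
      K0 := fun x h h0 h1 => (hK _ (hz0 x) (hz1 x)).2.2.1 h h0 h1
      K1 := fun x h => (hK _ (hz0 x) (hz1 x)).2.2.2.1 h
      KL := fun x t => ((hK _ (hz0 x) (hz1 x)).2.2.2.2 t).1
      KR := fun x t => ((hK _ (hz0 x) (hz1 x)).2.2.2.2 t).2 }
  have hτ : ∀ t : ℝ, 0 < clip (2 * t - 1) → clip (2 * t) = 1 := by
    intro t ht
    apply clip_of_one_le
    by_contra hcon
    rw [not_le] at hcon
    rw [clip_of_nonpos (by linarith)] at ht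
    exact lt_irrefl _ ht
  refine ⟨fun t x h => G0 F K z δ (clip (2 * t)) (clip (2 * t - 1)) x (clip h), ?_, ?_, ?_, ?_,
    ?_, ?_⟩
  · intro t h x y
    exact G0x D (hτ t) (clip_nonneg _) (clip_le_one _) (clip_nonneg _) (clip_le_one _) x y
  · intro t x h k
    have e1 := G0h D (h := clip h) (k := clip k) (hτ t) (clip_nonneg _) (clip_le_one _) x
    have e2 := clip_lip h k
    have e3 := abs_nonneg (h - k)
    refine e1.trans ((mul_le_mul_of_nonneg_left e2 (by positivity)).trans ?_)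
    apply mul_le_mul_of_nonneg_right _ e3
    linarith
  · intro x h t t'
    have e0 : |2 * t - 2 * t'| = 2 * |t - t'| := by
      rw [← mul_sub, abs_mul, abs_of_pos (by norm_num : (0 : ℝ) < 2)]
    have e0' : |2 * t - 1 - (2 * t' - 1)| = 2 * |t - t'| := by
      rw [← e0]
      congr 1
      ring
    have e1 := G0t D (h := clip h) (c := |t - t'|) (hτ t) (clip_nonneg _) (clip_le_one _) (hτ t')
      (clip_nonneg _) (clip_le_one _) (clip_nonneg h) (clip_le_one h) (clip_lip_le e0.le)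
      (clip_lip_le e0'.le) x
    refine e1.trans (mul_le_mul_of_nonneg_right ?_ (abs_nonneg _))
    linarith
  · intro x h h0 h1
    simp only
    have e1 : clip (2 * (0 : ℝ)) = 0 := clip_of_nonpos (by norm_num)
    have e2 : clip (2 * (0 : ℝ) - 1) = 0 := clip_of_nonpos (by norm_num)
    rw [e1, e2, clip_of_mem h0 h1]
    unfold G0
    rw [if_neg (fun hh => lt_irrefl _ hh.2.2)]
    unfold BB
    rw [zero_mul, pt_zero, zero_mul, sub_zero, one_mul, add_zero]
  · intro t x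
    simp only
    constructor
    · rw [clip_of_nonpos le_rfl]
      unfold G0
      rw [if_neg (fun hh => by have := hh.1.1; norm_num at this)]
      unfold BB
      rw [bet_zero, mul_zero, pt_zero, mul_zero, zero_add, mul_zero, zero_sub,
        clip_of_nonpos (x := -1) (by norm_num), mul_zero]
    · rw [clip_of_one_le le_rfl]
      unfold G0
      rw [if_neg (fun hh => by have := hh.1.2; norm_num at this)]
      unfold BB
      rw [bet_one, mul_zero, pt_zero, clip_of_one_le (x := 3 * 1 - 1) (by norm_num)]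
      congr 1
      ring
  · intro x h h0 h1 hf0 hf1
    simp only
    have e1 : clip (2 * (1 : ℝ)) = 1 := clip_of_one_le (by norm_num)
    have e2 : clip (2 * (1 : ℝ) - 1) = 1 := clip_of_one_le (by norm_num)
    rw [e1, e2, clip_of_mem h0 h1]
    rw [far0] at hf0
    rw [far1] at hf1
    have hδ : ∀ i, 1 / 100 ≤ δ (x i) := by
      intro i
      apply hc.del
      rintro v ⟨k, rfl | rfl⟩
      · exact hf0 i k
      · have := hf1 i k
        linarith
    have hchi : chi δ x = 1 := by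
      unfold chi
      have : (fun i => cc δ (x i)) = fun _ : Fin m => (1 : ℝ) := by
        funext i
        unfold cc
        apply clip_of_one_le
        have := hδ i
        linarith
      rw [this, dist_self, sub_zero]
    have hpsi : ∀ i, psi z δ (x i) = z (x i) := by
      intro i
      unfold psi
      rw [clip_of_one_le (by have := hδ i; linarith)]
      ring
    unfold G0
    by_cases hm : 1 / 3 ≤ h ∧ h ≤ 2 / 3
    · rw [if_pos ⟨hm, by rw [hchi]; exact one_pos, one_pos⟩, hchi, one_mul]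
      exact D.K1 x _
    · rw [if_neg (fun hh => hm hh.1)]
      unfold BB
      rw [one_mul, sub_self, zero_mul, zero_add, one_mul]
      by_cases hm1 : 1 / 3 ≤ h
      · have hm2 : 2 / 3 < h := by
          by_contra hcon
          exact hm ⟨hm1, not_lt.1 hcon⟩
        rw [clip_of_one_le (x := 3 * h - 1) (by linarith)]
        apply hF1
        rw [far1]
        intro i k
        unfold pt
        rw [hpsi i]
        apply hc.seg (x i) _ _ _ ⟨k, Or.inr rfl⟩ (bet_nonneg h) (bet_le_one h) (hf1 i k)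
        have := hc.far (x i) _ ⟨k, Or.inr rfl⟩
        linarith
      · rw [not_le] at hm1
        rw [clip_of_nonpos (x := 3 * h - 1) (by linarith)]
        apply hF0
        rw [far0]
        intro i k
        unfold pt
        rw [hpsi i]
        apply hc.seg (x i) _ _ _ ⟨k, Or.inl rfl⟩ (bet_nonneg h) (bet_le_one h) (hf0 i k)
        have := hc.far (x i) _ ⟨k, Or.inl rfl⟩
        linarith

end Pool.Agent.H711R2.LN
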