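import Pool.Agent.H261R3.LN.SStmts

/-! One-dimensional geometry of the walls, for task Slab. -/

set_option autoImplicit false

namespace Pool.Agent.H711R2.LN

open Pool.Agent.H261R3.LH (Lip1 clip clip_nonneg)
open Pool.Agent.H261R3.LN

theorem clip_le_one (x : ℝ) : clip x ≤ 1 := max_le zero_le_one (min_le_left _ _)

theorem clip_lip (x y : ℝ) : |clip x - clip y| ≤ |x - y| := by
  unfold clip
  have h0 : ∀ u : ℝ, max |(0 : ℝ) - 0| |u| = |u| := by
    intro u
    rw [sub_self, abs_zero, max_eq_right (abs_nonneg _)]
  have h0' : ∀ u : ℝ, max |(1 : ℝ) - 1| |u| = |u| := by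
    intro u
    rw [sub_self, abs_zero, max_eq_right (abs_nonneg _)]
  have h1 := abs_max_sub_max_le_max 0 (min 1 x) 0 (min 1 y)
  have h2 := abs_min_sub_min_le_max 1 x 1 y
  rw [h0] at h1
  rw [h0'] at h2
  exact h1.trans h2

theorem clip_of_nonpos {x : ℝ} (h : x ≤ 0) : clip x = 0 := by
  unfold clip
  rw [max_eq_left]
  exact (min_le_right _ _).trans h

theorem clip_of_one_le {x : ℝ} (h : 1 ≤ x) : clip x = 1 := by
  unfold clip
  rw [min_eq_left h]
  norm_num

theorem clip_of_mem {x : ℝ} (h0 : 0 ≤ x) (h1 : x ≤ 1) : clip x = x := by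
  unfold clip
  rw [min_eq_right h1, max_eq_right h0]

theorem clip_le {x : ℝ} (h : 0 ≤ x) : clip x ≤ x := max_le h (min_le_right _ _)

theorem clip_lip_le {x y c : ℝ} (h : |x - y| ≤ c) : |clip x - clip y| ≤ c := (clip_lip x y).trans h

/-- a wall of level 0 or 1 -/
def IsV (v : ℝ) : Prop := ∃ k : ℤ, v = k + 1 / 6 ∨ v = 2 * (k + 1 / 6)

theorem cells (x : ℝ) : ∃ a b : ℝ, IsV a ∧ IsV b ∧ a ≤ x ∧ x < b ∧
    (∀ v, IsV v → v ≤ a ∨ b ≤ v) ∧ b - a ≤ 1 ∧ 1 / 6 ≤ b - a := by
  obtain ⟨n, hn⟩ : ∃ n, n = ⌊(x - 1 / 6) / 2⌋ := ⟨_, rfl⟩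
  have h1 : (n : ℝ) ≤ (x - 1 / 6) / 2 := by rw [hn]; exact Int.floor_le _
  have h2 : (x - 1 / 6) / 2 < n + 1 := by rw [hn]; exact Int.lt_floor_add_one _
  rcases lt_or_ge x (2 * n + 1 / 3) with h | h
  · refine ⟨2 * n + 1 / 6, 2 * n + 1 / 3, ⟨2 * n, Or.inl (by push_cast; ring)⟩,
      ⟨n, Or.inr (by ring)⟩, by linarith, h, ?_, by linarith, by linarith⟩
    rintro v ⟨k, rfl | rfl⟩
    · rcases le_or_gt k (2 * n) with hk | hk
      · left
        have : (k : ℝ) ≤ 2 * n := by exact_mod_cast hk
        linarith
      · right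
        have : (2 * n + 1 : ℝ) ≤ k := by exact_mod_cast hk
        linarith
    · rcases lt_or_ge k n with hk | hk
      · left
        have : (k : ℝ) + 1 ≤ n := by exact_mod_cast hk
        linarith
      · right
        have : (n : ℝ) ≤ k := by exact_mod_cast hk
        linarith
  · rcases lt_or_ge x (2 * n + 7 / 6) with h' | h'
    · refine ⟨2 * n + 1 / 3, 2 * n + 7 / 6, ⟨n, Or.inr (by ring)⟩,
        ⟨2 * n + 1, Or.inl (by push_cast; ring)⟩, by linarith, h', ?_, by linarith, by linarith⟩
      rintro v ⟨k, rfl | rfl⟩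
      · rcases le_or_gt k (2 * n) with hk | hk
        · left
          have : (k : ℝ) ≤ 2 * n := by exact_mod_cast hk
          linarith
        · right
          have : (2 * n + 1 : ℝ) ≤ k := by exact_mod_cast hk
          linarith
      · rcases le_or_gt k n with hk | hk
        · left
          have : (k : ℝ) ≤ n := by exact_mod_cast hk
          linarith
        · right
          have : (n : ℝ) + 1 ≤ k := by exact_mod_cast hk
          linarith
    · refine ⟨2 * n + 7 / 6, 2 * n + 13 / 6, ⟨2 * n + 1, Or.inl (by push_cast; ring)⟩,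
        ⟨2 * n + 2, Or.inl (by push_cast; ring)⟩, by linarith, by linarith, ?_, by linarith,
        by linarith⟩
      rintro v ⟨k, rfl | rfl⟩
      · rcases le_or_gt k (2 * n + 1) with hk | hk
        · left
          have : (k : ℝ) ≤ 2 * n + 1 := by exact_mod_cast hk
          linarith
        · right
          have : (2 * n + 1 + 1 : ℝ) ≤ k := by exact_mod_cast hk
          linarith
      · rcases le_or_gt k n with hk | hk
        · left
          have : (k : ℝ) ≤ n := by exact_mod_cast hk
          linarith
        · right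
          have : (n : ℝ) + 1 ≤ k := by exact_mod_cast hk
          linarith

/-- The centre of the cell and the distance to the walls. -/
theorem geom : ∃ z δ : ℝ → ℝ, (∀ x, |z x - x| ≤ 1 / 2) ∧ (∀ x, 0 ≤ δ x) ∧
    (∀ x y, |δ x - δ y| ≤ |x - y|) ∧ (∀ x y, z x = z y ∨ δ x + δ y ≤ |x - y|) ∧
    (∀ x v, IsV v → 1 / 12 ≤ |z x - v|) ∧
    (∀ x v s c, IsV v → 0 ≤ s → s ≤ 1 → c ≤ |x - v| → c ≤ |z x - v| →
      c ≤ |x + s * (z x - x) - v|) ∧
    (∀ x, (∀ v, IsV v → 1 / 100 ≤ |x - v|) → 1 / 100 ≤ δ x) := by
  choose a b ha hb hax hbx hno hle hge using cells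
  have hcell : ∀ x y, x ≤ y → (a x = a y ∧ b x = b y) ∨
      min (x - a x) (b x - x) + min (y - a y) (b y - y) ≤ |x - y| := by
    intro x y hxy
    rcases lt_or_ge y (b x) with h | h
    · left
      have h1 : a y ≤ a x := by
        rcases hno x (a y) (ha y) with h1 | h1
        · exact h1
        · exact absurd (h1.trans (hax y)) (not_le.2 h)
      have h2 : a x ≤ a y := by
        rcases hno y (a x) (ha x) with h2 | h2
        · exact h2
        · have := hbx y
          have := hax x
          linarith
      have h3 : b x ≤ b y := by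
        rcases hno x (b y) (hb y) with h3 | h3
        · have := hbx y
          have := hax x
          linarith
        · exact h3
      have h4 : b y ≤ b x := by
        rcases hno y (b x) (hb x) with h4 | h4
        · have := hax y
          linarith
        · exact h4
      exact ⟨le_antisymm h2 h1, le_antisymm h3 h4⟩
    · right
      have h1 : b x ≤ a y := by
        rcases hno y (b x) (hb x) with h1 | h1
        · exact h1
        · have := hbx y
          linarith
      have h2 : min (x - a x) (b x - x) ≤ b x - x := min_le_right _ _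
      have h3 : min (y - a y) (b y - y) ≤ y - a y := min_le_left _ _
      rw [abs_sub_comm, abs_of_nonneg (by linarith)]
      linarith
  have hcell' : ∀ x y, (a x = a y ∧ b x = b y) ∨
      min (x - a x) (b x - x) + min (y - a y) (b y - y) ≤ |x - y| := by
    intro x y
    rcases le_total x y with h | h
    · exact hcell x y h
    · rcases hcell y x h with ⟨h1, h2⟩ | h1
      · exact Or.inl ⟨h1.symm, h2.symm⟩
      · right
        rw [abs_sub_comm]
        linarith
  have hδ0 : ∀ x, 0 ≤ min (x - a x) (b x - x) := by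
    intro x
    have := hax x
    have := hbx x
    exact le_min (by linarith) (by linarith)
  refine ⟨fun x => (a x + b x) / 2, fun x => min (x - a x) (b x - x), ?_, hδ0, ?_, ?_, ?_, ?_, ?_⟩
  · intro x
    have := hax x
    have := hbx x
    have := hle x
    rw [abs_le]
    constructor <;> linarith
  · intro x y
    rcases hcell' x y with ⟨h1, h2⟩ | h1
    · simp only [← h1, ← h2]
      refine (abs_min_sub_min_le_max _ _ _ _).trans (max_le ?_ ?_)
      · rw [show x - a x - (y - a x) = x - y by ring]
      · rw [show b x - x - (b x - y) = -(x - y) by ring, abs_neg]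
    · have h2 := hδ0 x
      have h3 := hδ0 y
      refine le_trans ?_ h1
      rw [abs_le]
      constructor <;> linarith
  · intro x y
    rcases hcell' x y with ⟨h1, h2⟩ | h1
    · left
      simp only [h1, h2]
    · exact Or.inr h1
  · intro x v hv
    have h1 := hge x
    simp only
    rcases hno x v hv with h | h
    · rw [abs_of_nonneg (by linarith)]
      linarith
    · rw [abs_of_nonpos (by linarith)]
      linarith
  · intro x v s c hv hs0 hs1 h1 h2
    simp only at h2 ⊢
    have h3 := hge x
    have h4 := hax x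
    have h5 := hbx x
    rcases hno x v hv with h | h
    · rw [abs_of_nonneg (by linarith)] at h1 h2
      refine le_trans ?_ (le_abs_self _)
      nlinarith
    · rw [abs_of_nonpos (by linarith)] at h1 h2
      refine le_trans ?_ (neg_le_abs _)
      nlinarith
  · intro x hx
    have h1 := hx (a x) (ha x)
    have h2 := hx (b x) (hb x)
    have h4 := hax x
    have h5 := hbx x
    rw [abs_of_nonneg (by linarith)] at h1
    rw [abs_of_nonpos (by linarith)] at h2
    exact le_min (by linarith) (by linarith)

end Pool.Agent.H711R2.LN
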